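import Pool.Agent.Q102.TT.Three

set_option autoImplicit false
set_option linter.unusedSectionVars false

/-! The reduction to absolute row and column sums at most three. -/

namespace Pool.Agent.Q102.TT

open Pool.Agent.W649.ZL TH57.Thr.Ati Matrix

variable {G : Type} [Group G]

section bord

variable {K L : Type} [Fintype K] [Fintype L] [DecidableEq K] [DecidableEq L]

/-- the bordered matrix -/
noncomputable def bord (A : Matrix K L (MonoidAlgebra ℤ G)) (p : K → MonoidAlgebra ℤ G)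
    (q : L → MonoidAlgebra ℤ G) : Matrix (K ⊕ Unit) (L ⊕ Unit) (MonoidAlgebra ℤ G) :=
  fromBlocks (fun i j => A i j - p i * q j) (fun i (_ : Unit) => p i) (fun _ j => q j) (-1)

theorem kap_bord (A : Matrix K L (MonoidAlgebra ℤ G)) (p : K → MonoidAlgebra ℤ G)
    (q : L → MonoidAlgebra ℤ G) : kap (toC (bord A p q)) = kap (toC A) := by
  set ψ := MonoidAlgebra.mapRingHom G (Int.castRingHom ℂ) with hψ
  rw [← kap_ext (toC A) (fun i => ψ (p i)) (fun j => ψ (q j))]
  congr 1
  funext i j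
  rcases i with i | i <;> rcases j with j | j
  · change ψ (A i j - p i * q j) = ψ (A i j) - ψ (p i) * ψ (q j)
    rw [map_sub, map_mul]
  · rfl
  · rfl
  · change ψ (-1 : MonoidAlgebra ℤ G) = -1
    rw [map_neg, map_one]

/-- sum of a column -/
def cw (A : Matrix K L (MonoidAlgebra ℤ G)) (j : L) : ℕ := ∑ i, wt (A i j)

/-- sum of a row -/
def rw' (A : Matrix K L (MonoidAlgebra ℤ G)) (i : K) : ℕ := ∑ j, wt (A i j)

theorem cw_inl (A : Matrix K L (MonoidAlgebra ℤ G)) (p : K → MonoidAlgebra ℤ G)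
    (q : L → MonoidAlgebra ℤ G) (j : L) :
    cw (bord A p q) (Sum.inl j) = ∑ i, wt (A i j - p i * q j) + wt (q j) := by
  unfold cw
  rw [Fintype.sum_sum_type, Fintype.sum_unique (fun i : Unit => wt (bord A p q (Sum.inr i) (Sum.inl j)))]
  rfl

theorem cw_inr (A : Matrix K L (MonoidAlgebra ℤ G)) (p : K → MonoidAlgebra ℤ G)
    (q : L → MonoidAlgebra ℤ G) (j : Unit) :
    cw (bord A p q) (Sum.inr j) = ∑ i, wt (p i) + 1 := by
  unfold cw
  rw [Fintype.sum_sum_type, Fintype.sum_unique (fun i : Unit => wt (bord A p q (Sum.inr i) (Sum.inr j)))]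
  congr 1
  exact wt_neg_one

theorem rw_inl (A : Matrix K L (MonoidAlgebra ℤ G)) (p : K → MonoidAlgebra ℤ G)
    (q : L → MonoidAlgebra ℤ G) (i : K) :
    rw' (bord A p q) (Sum.inl i) = ∑ j, wt (A i j - p i * q j) + wt (p i) := by
  unfold rw'
  rw [Fintype.sum_sum_type, Fintype.sum_unique (fun j : Unit => wt (bord A p q (Sum.inl i) (Sum.inr j)))]
  rfl

theorem rw_inr (A : Matrix K L (MonoidAlgebra ℤ G)) (p : K → MonoidAlgebra ℤ G)
    (q : L → MonoidAlgebra ℤ G) (i : Unit) :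
    rw' (bord A p q) (Sum.inr i) = ∑ j, wt (q j) + 1 := by
  unfold rw'
  rw [Fintype.sum_sum_type, Fintype.sum_unique (fun j : Unit => wt (bord A p q (Sum.inr i) (Sum.inr j)))]
  congr 1
  exact wt_neg_one

/-- total excess -/
def exc (A : Matrix K L (MonoidAlgebra ℤ G)) : ℕ := ∑ j, (cw A j - 3) + ∑ i, (rw' A i - 3)

theorem exc_bord (A : Matrix K L (MonoidAlgebra ℤ G)) (p : K → MonoidAlgebra ℤ G)
    (q : L → MonoidAlgebra ℤ G) :
    exc (bord A p q) = (∑ j, (cw (bord A p q) (Sum.inl j) - 3) + (∑ i, wt (p i) + 1 - 3))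
      + (∑ i, (rw' (bord A p q) (Sum.inl i) - 3) + (∑ j, wt (q j) + 1 - 3)) := by
  unfold exc
  rw [Fintype.sum_sum_type, Fintype.sum_sum_type,
    Fintype.sum_unique (fun j : Unit => cw (bord A p q) (Sum.inr j) - 3),
    Fintype.sum_unique (fun i : Unit => rw' (bord A p q) (Sum.inr i) - 3), cw_inr, rw_inr]

theorem step_col (A : Matrix K L (MonoidAlgebra ℤ G)) (j0 : L) (h : 4 ≤ cw A j0) :
    ∃ (p : K → MonoidAlgebra ℤ G) (q : L → MonoidAlgebra ℤ G), exc (bord A p q) < exc A := by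
  obtain ⟨y, z, h1, h2, h3, h4⟩ := peel2 (fun i => A i j0) (by unfold cw at h; omega)
  refine ⟨y, Pi.single j0 1, ?_⟩
  have hq : ∀ j, wt ((Pi.single j0 1 : L → MonoidAlgebra ℤ G) j) = if j = j0 then 1 else 0 := by
    intro j
    by_cases hj : j = j0
    · subst hj
      rw [Pi.single_eq_same, wt_one, if_pos rfl]
    · rw [Pi.single_eq_of_ne hj, wt_zero, if_neg hj]
  have hB0 : ∀ i, A i j0 - y i * (Pi.single j0 1 : L → MonoidAlgebra ℤ G) j0 = z i := by
    intro i
    rw [Pi.single_eq_same, mul_one, h1 i]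
    abel
  have hBo : ∀ i j, j ≠ j0 → A i j - y i * (Pi.single j0 1 : L → MonoidAlgebra ℤ G) j = A i j := by
    intro i j hj
    rw [Pi.single_eq_of_ne hj, mul_zero, sub_zero]
  have hc0 : cw (bord A y (Pi.single j0 1)) (Sum.inl j0) + 1 ≤ cw A j0 := by
    rw [cw_inl, hq, if_pos rfl, Finset.sum_congr rfl fun i _ => by rw [hB0 i]]
    change _ ≤ ∑ i, wt (A i j0)
    omega
  have hco : ∀ j, j ≠ j0 → cw (bord A y (Pi.single j0 1)) (Sum.inl j) = cw A j := by
    intro j hj
    rw [cw_inl, hq, if_neg hj, add_zero, Finset.sum_congr rfl fun i _ => by rw [hBo i j hj]]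
    rfl
  have hr : ∀ i, rw' (bord A y (Pi.single j0 1)) (Sum.inl i) ≤ rw' A i := by
    intro i
    rw [rw_inl]
    unfold rw'
    rw [← Finset.add_sum_erase _ _ (Finset.mem_univ j0),
      ← Finset.add_sum_erase Finset.univ (fun j => wt (A i j)) (Finset.mem_univ j0), hB0,
      Finset.sum_congr rfl fun j hj => by rw [hBo i j (Finset.mem_erase.1 hj).1]]
    have := h2 i
    change wt (y i) + wt (z i) ≤ wt (A i j0) at this
    omega
  rw [exc_bord]
  unfold exc
  have e1 : ∑ j, (cw (bord A y (Pi.single j0 1)) (Sum.inl j) - 3) < ∑ j, (cw A j - 3) := by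
    apply Finset.sum_lt_sum
    · intro j _
      by_cases hj : j = j0
      · subst hj
        omega
      · rw [hco j hj]
    · exact ⟨j0, Finset.mem_univ _, by omega⟩
  have e2 : ∑ i, (rw' (bord A y (Pi.single j0 1)) (Sum.inl i) - 3) ≤ ∑ i, (rw' A i - 3) :=
    Finset.sum_le_sum fun i _ => by have := hr i; omega
  have e3 : ∑ j, wt ((Pi.single j0 1 : L → MonoidAlgebra ℤ G) j) = 1 := by
    rw [Finset.sum_congr rfl fun j _ => hq j]
    simp
  omega

theorem step_row (A : Matrix K L (MonoidAlgebra ℤ G)) (i0 : K) (h : 4 ≤ rw' A i0) :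
    ∃ (p : K → MonoidAlgebra ℤ G) (q : L → MonoidAlgebra ℤ G), exc (bord A p q) < exc A := by
  obtain ⟨y, z, h1, h2, h3, h4⟩ := peel2 (fun j => A i0 j) (by unfold rw' at h; omega)
  refine ⟨Pi.single i0 1, z, ?_⟩
  have hp : ∀ i, wt ((Pi.single i0 1 : K → MonoidAlgebra ℤ G) i) = if i = i0 then 1 else 0 := by
    intro i
    by_cases hi : i = i0
    · subst hi
      rw [Pi.single_eq_same, wt_one, if_pos rfl]
    · rw [Pi.single_eq_of_ne hi, wt_zero, if_neg hi]
  have hB0 : ∀ j, A i0 j - (Pi.single i0 1 : K → MonoidAlgebra ℤ G) i0 * z j = y j := by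
    intro j
    rw [Pi.single_eq_same, one_mul, h1 j]
    abel
  have hBo : ∀ i j, i ≠ i0 → A i j - (Pi.single i0 1 : K → MonoidAlgebra ℤ G) i * z j = A i j := by
    intro i j hi
    rw [Pi.single_eq_of_ne hi, zero_mul, sub_zero]
  have hr0 : rw' (bord A (Pi.single i0 1) z) (Sum.inl i0) ≤ 3 := by
    rw [rw_inl, hp, if_pos rfl, Finset.sum_congr rfl fun j _ => by rw [hB0 j]]
    omega
  have hro : ∀ i, i ≠ i0 → rw' (bord A (Pi.single i0 1) z) (Sum.inl i) = rw' A i := by
    intro i hi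
    rw [rw_inl, hp, if_neg hi, add_zero, Finset.sum_congr rfl fun j _ => by rw [hBo i j hi]]
    rfl
  have hc : ∀ j, cw (bord A (Pi.single i0 1) z) (Sum.inl j) ≤ cw A j := by
    intro j
    rw [cw_inl]
    unfold cw
    rw [← Finset.add_sum_erase _ _ (Finset.mem_univ i0),
      ← Finset.add_sum_erase Finset.univ (fun i => wt (A i j)) (Finset.mem_univ i0), hB0,
      Finset.sum_congr rfl fun i hi => by rw [hBo i j (Finset.mem_erase.1 hi).1]]
    have := h2 j
    change wt (y j) + wt (z j) ≤ wt (A i0 j) at this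
    omega
  rw [exc_bord]
  unfold exc
  have e1 : ∑ j, (cw (bord A (Pi.single i0 1) z) (Sum.inl j) - 3) ≤ ∑ j, (cw A j - 3) :=
    Finset.sum_le_sum fun j _ => by have := hc j; omega
  have e2 : ∑ i, (rw' (bord A (Pi.single i0 1) z) (Sum.inl i) - 3) + (rw' A i0 - 3)
      ≤ ∑ i, (rw' A i - 3) := by
    rw [← Finset.add_sum_erase _ _ (Finset.mem_univ i0),
      ← Finset.add_sum_erase Finset.univ (fun i => rw' A i - 3) (Finset.mem_univ i0),
      Finset.sum_congr rfl fun i hi => by rw [hro i (Finset.mem_erase.1 hi).1]]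
    omega
  have e3 : ∑ i, wt ((Pi.single i0 1 : K → MonoidAlgebra ℤ G) i) = 1 := by
    rw [Finset.sum_congr rfl fun i _ => hp i]
    simp
  have e4 : ∑ j, wt (z j) + 2 ≤ rw' A i0 := h4
  omega

end bord

/-- **Reduction to absolute row and column sums at most three.** -/
theorem red : ∀ (N : ℕ) (K L : Type) [Fintype K] [Fintype L] [DecidableEq K] [DecidableEq L]
    (A : Matrix K L (MonoidAlgebra ℤ G)), exc A ≤ N →
    ∃ (K' L' : Type) (_ : Fintype K') (_ : Fintype L') (_ : DecidableEq K')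
      (_ : DecidableEq L') (B : Matrix K' L' (MonoidAlgebra ℤ G)),
      kap (toC B) = kap (toC A) ∧ (∀ j, cw B j ≤ 3) ∧ ∀ i, rw' B i ≤ 3 := by
  intro N
  induction N with
  | zero =>
    intro K L _ _ _ _ A hN
    refine ⟨K, L, inferInstance, inferInstance, inferInstance, inferInstance, A, rfl, ?_, ?_⟩
    · intro j
      by_contra h
      obtain ⟨p, q, hpq⟩ := step_col A j (by omega)
      omega
    · intro i
      by_contra h
      obtain ⟨p, q, hpq⟩ := step_row A i (by omega)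
      omega
  | succ N ih =>
    intro K L _ _ _ _ A hN
    by_cases hc : ∃ j, 4 ≤ cw A j
    · obtain ⟨j, hj⟩ := hc
      obtain ⟨p, q, hpq⟩ := step_col A j hj
      obtain ⟨K', L', i1, i2, i3, i4, B, h1, h2, h3⟩ := ih _ _ (bord A p q) (by omega)
      exact ⟨K', L', i1, i2, i3, i4, B, h1.trans (kap_bord A p q), h2, h3⟩
    by_cases hr : ∃ i, 4 ≤ rw' A i
    · obtain ⟨i, hi⟩ := hr
      obtain ⟨p, q, hpq⟩ := step_row A i hi
      obtain ⟨K', L', i1, i2, i3, i4, B, h1, h2, h3⟩ := ih _ _ (bord A p q) (by omega)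
      exact ⟨K', L', i1, i2, i3, i4, B, h1.trans (kap_bord A p q), h2, h3⟩
    push Not at hc hr
    exact ⟨K, L, inferInstance, inferInstance, inferInstance, inferInstance, A, rfl,
      fun j => by have := hc j; omega, fun i => by have := hr i; omega⟩

/-- the same with index sets `Fin m`, `Fin n` -/
theorem red_fin {m n : ℕ} (A : Matrix (Fin m) (Fin n) (MonoidAlgebra ℤ G)) :
    ∃ (m' n' : ℕ) (B : Matrix (Fin m') (Fin n') (MonoidAlgebra ℤ G)),
      kap (toC B) = kap (toC A) ∧ (∀ j, ∑ i, wt (B i j) ≤ 3) ∧ ∀ i, ∑ j, wt (B i j) ≤ 3 := by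
  obtain ⟨K, L, i1, i2, i3, i4, B, h1, h2, h3⟩ := red _ _ _ A le_rfl
  let e : Fin (Fintype.card K) ≃ K := (Fintype.equivFin K).symm
  let e' : Fin (Fintype.card L) ≃ L := (Fintype.equivFin L).symm
  refine ⟨Fintype.card K, Fintype.card L, B.submatrix e e', ?_, ?_, ?_⟩
  · rw [← h1]
    exact kap_re e e' (toC B)
  · intro j
    have h4 := h2 (e' j)
    unfold cw at h4
    rwa [← Equiv.sum_comp e] at h4
  · intro i
    have h4 := h3 (e i)
    unfold rw' at h4
    rwa [← Equiv.sum_comp e'] at h4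

end Pool.Agent.Q102.TT
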