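import Pool.Agent.TH57.Thr.Ati3

set_option autoImplicit false
set_option linter.unusedSectionVars false

/-! Every integer matrix over a group ring has the kernel dimension of an integer matrix whose
rows and columns have absolute sum at most three. -/

namespace Pool.Agent.Q102.TT

open Pool.Agent.W649.ZL TH57.Thr.Ati Matrix

variable {G : Type} [Group G]

section ext

variable {K L : Type} [Fintype K] [Fintype L] [DecidableEq K] [DecidableEq L]

/-- bordering -/
theorem kap_ext (A : Matrix K L (MonoidAlgebra ℂ G)) (p : K → MonoidAlgebra ℂ G)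
    (q : L → MonoidAlgebra ℂ G) :
    kap (fromBlocks (fun i j => A i j - p i * q j) (fun i (_ : Unit) => p i) (fun _ j => q j)
      (-1) : Matrix (K ⊕ Unit) (L ⊕ Unit) (MonoidAlgebra ℂ G)) = kap A := by
  set P : Matrix K Unit (MonoidAlgebra ℂ G) := fun i _ => p i with hP
  set Q : Matrix Unit L (MonoidAlgebra ℂ G) := fun _ j => q j with hQ
  have hA : (fun i j => A i j - p i * q j : Matrix K L (MonoidAlgebra ℂ G)) = A - P * Q := by
    funext i j
    rw [Matrix.sub_apply, Matrix.mul_apply, Fintype.sum_unique]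
  rw [hA]
  let U : Matrix (K ⊕ Unit) (K ⊕ Unit) (MonoidAlgebra ℂ G) := fromBlocks 1 (-P) 0 1
  let U' : Matrix (K ⊕ Unit) (K ⊕ Unit) (MonoidAlgebra ℂ G) := fromBlocks 1 P 0 1
  let D : Matrix (K ⊕ Unit) (L ⊕ Unit) (MonoidAlgebra ℂ G) := fromBlocks A 0 0 1
  let W : Matrix (L ⊕ Unit) (L ⊕ Unit) (MonoidAlgebra ℂ G) := fromBlocks 1 0 Q (-1)
  have e1 : fromBlocks (A - P * Q) P Q (-1 : Matrix Unit Unit (MonoidAlgebra ℂ G))
      = U * (D * W) := by
    simp only [U, D, W]
    rw [Matrix.fromBlocks_multiply, Matrix.fromBlocks_multiply]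
    simp [sub_eq_add_neg]
  have u1 : U * U' = 1 := by
    simp only [U, U']
    rw [Matrix.fromBlocks_multiply, ← Matrix.fromBlocks_one]
    simp
  have u2 : W * W = 1 := by
    simp only [W]
    rw [Matrix.fromBlocks_multiply, ← Matrix.fromBlocks_one]
    simp
  rw [e1, kap_mul_left _ (Rop_inj u1), kap_unit_right _ u2]
  exact kap_stab A

end ext

/-- the sum of the absolute values of the coefficients -/
def wt (x : MonoidAlgebra ℤ G) : ℕ := x.coeff.sum fun _ c => c.natAbs

theorem wt_eq (x : MonoidAlgebra ℤ G) (s : Finset G) (hs : x.coeff.support ⊆ s) :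
    wt x = ∑ g ∈ s, (x.coeff g).natAbs := by
  unfold wt
  exact Finsupp.sum_of_support_subset _ hs _ (by simp)

theorem wt_zero : wt (0 : MonoidAlgebra ℤ G) = 0 := by
  rw [wt_eq 0 ∅ (by simp)]
  simp

theorem wt_single (g : G) (c : ℤ) : wt (MonoidAlgebra.single g c) = c.natAbs := by
  classical
  rw [wt_eq _ {g} (by
    intro h hh
    rw [Finsupp.mem_support_iff] at hh
    rw [Finset.mem_singleton]
    by_contra hne
    apply hh
    change (Finsupp.single g c) h = 0
    rw [Finsupp.single_apply, if_neg (fun h' => hne h'.symm)]), Finset.sum_singleton]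
  change ((Finsupp.single g c) g).natAbs = _
  rw [Finsupp.single_eq_same]

theorem wt_add (x y : MonoidAlgebra ℤ G) : wt (x + y) ≤ wt x + wt y := by
  classical
  rw [wt_eq x (x.coeff.support ∪ y.coeff.support) Finset.subset_union_left,
    wt_eq y (x.coeff.support ∪ y.coeff.support) Finset.subset_union_right,
    wt_eq (x + y) (x.coeff.support ∪ y.coeff.support) (by
      rw [MonoidAlgebra.coeff_add]
      exact Finsupp.support_add), ← Finset.sum_add_distrib]
  refine Finset.sum_le_sum fun g _ => ?_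
  rw [MonoidAlgebra.coeff_add, Finsupp.add_apply]
  exact Int.natAbs_add_le _ _

theorem wt_one : wt (1 : MonoidAlgebra ℤ G) = 1 := by
  rw [MonoidAlgebra.one_def, wt_single]
  rfl

theorem wt_neg_one : wt (-1 : MonoidAlgebra ℤ G) = 1 := by
  have : (-1 : MonoidAlgebra ℤ G) = MonoidAlgebra.single 1 (-1) := by
    rw [MonoidAlgebra.one_def]
    ext g
    simp [MonoidAlgebra.coeff_neg]
  rw [this, wt_single]
  rfl

/-- removing one unit from an element -/
theorem peel (x : MonoidAlgebra ℤ G) (hx : 1 ≤ wt x) :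
    ∃ y z, x = y + z ∧ wt y = 1 ∧ wt z + 1 = wt x := by
  classical
  have hne : ∃ g, x.coeff g ≠ 0 := by
    by_contra h
    push Not at h
    have : x = 0 := by
      ext g
      rw [h g]
      rfl
    rw [this, wt_zero] at hx
    omega
  obtain ⟨g, hg⟩ := hne
  let e : ℤ := if 0 < x.coeff g then 1 else -1
  have he : e.natAbs = 1 := by
    simp only [e]
    split_ifs <;> rfl
  have hge : (x.coeff g - e).natAbs + 1 = (x.coeff g).natAbs := by
    simp only [e]
    split_ifs with h
    · omega
    · have : x.coeff g < 0 := lt_of_le_of_ne (not_lt.1 h) hg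
      omega
  have hz : ∀ h, (x - MonoidAlgebra.single g e).coeff h
      = if h = g then x.coeff g - e else x.coeff h := by
    intro h
    rw [MonoidAlgebra.coeff_sub, Finsupp.sub_apply]
    change x.coeff h - (Finsupp.single g e) h = _
    rw [Finsupp.single_apply]
    by_cases hh : h = g
    · subst hh
      simp
    · rw [if_neg (fun h' => hh h'.symm), if_neg hh, sub_zero]
  refine ⟨MonoidAlgebra.single g e, x - MonoidAlgebra.single g e, by abel, ?_, ?_⟩
  · rw [wt_single, he]
  · have hgs : g ∈ x.coeff.support := Finsupp.mem_support_iff.2 hg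
    rw [wt_eq _ x.coeff.support (by
      intro h hh
      rw [Finsupp.mem_support_iff, hz] at hh
      by_cases hhg : h = g
      · rw [hhg]
        exact hgs
      · rw [if_neg hhg] at hh
        exact Finsupp.mem_support_iff.2 hh), wt_eq x _ (Finset.Subset.refl _),
      ← Finset.add_sum_erase _ _ hgs, ← Finset.add_sum_erase _ _ hgs, hz, if_pos rfl]
    have : ∑ h ∈ x.coeff.support.erase g, ((x - MonoidAlgebra.single g e).coeff h).natAbs
        = ∑ h ∈ x.coeff.support.erase g, (x.coeff h).natAbs := by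
      refine Finset.sum_congr rfl fun h hh => ?_
      rw [hz, if_neg (Finset.mem_erase.1 hh).1]
    rw [this]
    omega

/-- removing one unit from a vector -/
theorem peelv {ι : Type} [Fintype ι] [DecidableEq ι] (v : ι → MonoidAlgebra ℤ G)
    (hv : 1 ≤ ∑ i, wt (v i)) : ∃ y z : ι → MonoidAlgebra ℤ G, (∀ i, v i = y i + z i) ∧
      (∀ i, wt (y i) + wt (z i) = wt (v i)) ∧ ∑ i, wt (y i) = 1 := by
  have hne : ∃ i, 1 ≤ wt (v i) := by
    by_contra h
    push Not at h
    have : ∑ i, wt (v i) = 0 := Finset.sum_eq_zero fun i _ => by have := h i; omega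
    omega
  obtain ⟨i, hi⟩ := hne
  obtain ⟨y, z, h1, h2, h3⟩ := peel (v i) hi
  refine ⟨Pi.single i y, Function.update v i z, ?_, ?_, ?_⟩
  · intro k
    by_cases hk : k = i
    · subst hk
      rw [Pi.single_eq_same, Function.update_self]
      exact h1
    · rw [Pi.single_eq_of_ne hk, Function.update_of_ne hk, zero_add]
  · intro k
    by_cases hk : k = i
    · subst hk
      rw [Pi.single_eq_same, Function.update_self]
      omega
    · rw [Pi.single_eq_of_ne hk, Function.update_of_ne hk, wt_zero, zero_add]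
  · rw [Finset.sum_eq_single i]
    · rw [Pi.single_eq_same, h2]
    · intro k _ hk
      rw [Pi.single_eq_of_ne hk, wt_zero]
    · intro h; exact absurd (Finset.mem_univ _) h

/-- removing two units from a vector -/
theorem peel2 {ι : Type} [Fintype ι] [DecidableEq ι] (v : ι → MonoidAlgebra ℤ G)
    (hv : 2 ≤ ∑ i, wt (v i)) : ∃ y z : ι → MonoidAlgebra ℤ G, (∀ i, v i = y i + z i) ∧
      (∀ i, wt (y i) + wt (z i) ≤ wt (v i)) ∧ ∑ i, wt (y i) ≤ 2 ∧
      ∑ i, wt (z i) + 2 ≤ ∑ i, wt (v i) := by
  obtain ⟨y, z, h1, h2, h3⟩ := peelv v (by omega)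
  have h4 : ∑ i, wt (y i) + ∑ i, wt (z i) = ∑ i, wt (v i) := by
    rw [← Finset.sum_add_distrib]
    exact Finset.sum_congr rfl fun i _ => h2 i
  obtain ⟨y', z', k1, k2, k3⟩ := peelv z (by omega)
  have k4 : ∑ i, wt (y' i) + ∑ i, wt (z' i) = ∑ i, wt (z i) := by
    rw [← Finset.sum_add_distrib]
    exact Finset.sum_congr rfl fun i _ => k2 i
  refine ⟨fun i => y i + y' i, z', ?_, ?_, ?_, by omega⟩
  · intro i
    change v i = y i + y' i + z' i
    rw [h1, k1, add_assoc]
  · intro i
    have := wt_add (y i) (y' i)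
    have := h2 i
    have := k2 i
    change wt (y i + y' i) + _ ≤ _
    omega
  · have : ∑ i, wt (y i + y' i) ≤ ∑ i, (wt (y i) + wt (y' i)) :=
      Finset.sum_le_sum fun i _ => wt_add _ _
    rw [Finset.sum_add_distrib] at this
    change ∑ i, wt (y i + y' i) ≤ 2
    omega

end Pool.Agent.Q102.TT
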