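import Pool.Agent.TH57.Thr.Ati3

set_option autoImplicit false
set_option linter.unusedSectionVars false

/-! Matrices over group rings of torsion-free groups with at most two terms in each column. -/

namespace Pool.Agent.Q102.TT

open Pool.Agent.W649.ZL TH57.Thr.Ati Matrix

variable {G : Type} [Group G]

/-- the number of terms -/
def nt (x : MonoidAlgebra ℂ G) : ℕ := x.coeff.support.card

theorem nt_eq_zero {x : MonoidAlgebra ℂ G} : nt x = 0 ↔ x = 0 := by
  unfold nt
  rw [Finset.card_eq_zero, Finsupp.support_eq_empty]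
  constructor
  · intro h
    ext g
    rw [h]
    rfl
  · rintro rfl
    rfl

theorem nt_zero : nt (0 : MonoidAlgebra ℂ G) = 0 := nt_eq_zero.2 rfl

theorem nt_add (x y : MonoidAlgebra ℂ G) : nt (x + y) ≤ nt x + nt y := by
  classical
  unfold nt
  rw [MonoidAlgebra.coeff_add]
  exact (Finset.card_le_card Finsupp.support_add).trans (Finset.card_union_le _ _)

theorem nt_single_mul (g : G) (a : ℂ) (x : MonoidAlgebra ℂ G) :
    nt (MonoidAlgebra.single g a * x) ≤ nt x := by
  classical
  unfold nt
  have h : (MonoidAlgebra.single g a * x).coeff.support ⊆ x.coeff.support.image (g * ·) := by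
    intro h hh
    rw [Finsupp.mem_support_iff, MonoidAlgebra.coeff_single_mul_apply] at hh
    rw [Finset.mem_image]
    refine ⟨g⁻¹ * h, ?_, by group⟩
    rw [Finsupp.mem_support_iff]
    intro h0
    rw [h0, mul_zero] at hh
    exact hh rfl
  exact (Finset.card_le_card h).trans Finset.card_image_le

theorem nt_single_le (g : G) (a : ℂ) : nt (MonoidAlgebra.single g a) ≤ 1 := by
  classical
  unfold nt
  exact (Finset.card_le_card (Finsupp.support_single_subset (a := g) (b := a))).trans
    (by rw [Finset.card_singleton])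

theorem eq_single_of_nt {x : MonoidAlgebra ℂ G} (h : nt x = 1) :
    ∃ g a, a ≠ 0 ∧ x = MonoidAlgebra.single g a := by
  obtain ⟨g, a, ha, hx⟩ := Finsupp.card_support_eq_one'.1 h
  refine ⟨g, a, ha, ?_⟩
  ext k
  rw [hx]
  rfl

variable {K L : Type} [Fintype K] [Fintype L] [DecidableEq K] [DecidableEq L]

/-- adding multiples of a row to the others -/
theorem kap_row (A : Matrix K L (MonoidAlgebra ℂ G)) (i1 : K) (s : K → MonoidAlgebra ℂ G)
    (hs : s i1 = 0) : kap (fun i j => A i j + s i * A i1 j) = kap A := by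
  let U : (K → MonoidAlgebra ℂ G) → Matrix K K (MonoidAlgebra ℂ G) := fun t i k =>
    (if i = k then 1 else 0) + (if k = i1 then t i else 0)
  have hU : ∀ {M : Type} (t : K → MonoidAlgebra ℂ G) (B : Matrix K M (MonoidAlgebra ℂ G)),
      U t * B = fun i j => B i j + t i * B i1 j := by
    intro M t B
    ext1 i j
    rw [Matrix.mul_apply]
    simp only [U, add_mul, Finset.sum_add_distrib, ite_mul, one_mul, zero_mul,
      Finset.sum_ite_eq, Finset.sum_ite_eq', Finset.mem_univ, if_true]
  have h1 : U s * U (fun i => -s i) = 1 := by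
    rw [hU]
    ext1 i k
    rw [Matrix.one_apply]
    simp only [U]
    by_cases h : k = i1
    · subst h
      rw [if_pos rfl, if_pos rfl, hs]
      simp
    · rw [if_neg h, if_neg h, if_neg (fun h' : i1 = k => h h'.symm)]
      simp
  rw [← hU]
  exact kap_mul_left _ (Rop_inj h1) A

/-- adding multiples of a column to the others -/
theorem kap_col (A : Matrix K L (MonoidAlgebra ℂ G)) (j0 : L) (r : L → MonoidAlgebra ℂ G)
    (hr : r j0 = 0) : kap (fun i j => A i j + A i j0 * r j) = kap A := by
  let V : (L → MonoidAlgebra ℂ G) → Matrix L L (MonoidAlgebra ℂ G) := fun t k j =>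
    (if k = j then 1 else 0) + (if k = j0 then t j else 0)
  have hV : ∀ {M : Type} (t : L → MonoidAlgebra ℂ G) (B : Matrix M L (MonoidAlgebra ℂ G)),
      B * V t = fun i j => B i j + B i j0 * t j := by
    intro M t B
    ext1 i j
    rw [Matrix.mul_apply]
    simp only [V, mul_add, Finset.sum_add_distrib, mul_ite, mul_one, mul_zero,
      Finset.sum_ite_eq, Finset.sum_ite_eq', Finset.mem_univ, if_true]
  have h1 : V r * V (fun i => -r i) = 1 := by
    rw [hV]
    ext1 k j
    rw [Matrix.one_apply]
    simp only [V]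
    by_cases h : k = j0
    · subst h
      rw [if_pos rfl, if_pos rfl, hr]
      simp
    · rw [if_neg h, if_neg h]
      simp [hr]
  rw [← hV]
  exact kap_unit_right A h1

/-- elements with at most two terms are regular in torsion-free groups -/
theorem coord_zero (htf : ∀ g : G, ∀ n : ℕ, 0 < n → g ^ n = 1 → g = 1) (y : MonoidAlgebra ℂ G)
    (hy : y ≠ 0) (h2 : nt y ≤ 2) (F : EE G K) (k : K)
    (hf : ∀ u, cv y (fun v => F (v, k)) u = 0) (u : G) : F (u, k) = 0 := by
  classical
  have hne : y.coeff.support.Nonempty := by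
    rw [Finset.nonempty_iff_ne_empty]
    intro h
    exact hy (nt_eq_zero.1 (by unfold nt; rw [h]; rfl))
  obtain ⟨g, hg⟩ := hne
  obtain ⟨h, hh⟩ : ∃ h, y.coeff.support ⊆ {g, h} := by
    have h1 : (y.coeff.support.erase g).card ≤ 1 := by
      rw [Finset.card_erase_of_mem hg]
      unfold nt at h2
      omega
    have : Nonempty G := ⟨1⟩
    obtain ⟨h, hh⟩ := (Finset.card_le_one_iff_subset_singleton).1 h1
    refine ⟨h, fun z hz => ?_⟩
    by_cases hzg : z = g
    · simp [hzg]
    · have := hh (Finset.mem_erase.2 ⟨hzg, hz⟩)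
      simp only [Finset.mem_singleton] at this
      simp [this]
  let x : MonoidAlgebra ℂ G := y * MonoidAlgebra.single g⁻¹ 1
  have hx0 : x ≠ 0 := by
    intro h0
    apply hy
    have h3 : x * MonoidAlgebra.single g 1 = y := by
      change y * MonoidAlgebra.single g⁻¹ 1 * MonoidAlgebra.single g 1 = y
      rw [mul_assoc, MonoidAlgebra.single_mul_single, inv_mul_cancel, one_mul,
        ← MonoidAlgebra.one_def, mul_one]
    rw [← h3, h0, zero_mul]
  have hxS : x ∈ SR (Subgroup.zpowers (h * g⁻¹)) := by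
    apply mem_SR_of
    intro z hz
    have h3 : x.coeff z = y.coeff (z * g) := by
      change (y * MonoidAlgebra.single g⁻¹ 1).coeff z = _
      rw [MonoidAlgebra.coeff_mul_single_apply, inv_inv, mul_one]
    rw [h3] at hz
    have h4 := hh (Finsupp.mem_support_iff.2 hz)
    rw [Finset.mem_insert, Finset.mem_singleton] at h4
    rcases h4 with h4 | h4
    · have : z = 1 := mul_eq_right.1 h4
      rw [this]
      exact Subgroup.one_mem _
    · have : z = h * g⁻¹ := by rw [← h4]; group
      rw [this]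
      exact Subgroup.mem_zpowers _
  refine comp_inj htf (Subgroup.zpowers (h * g⁻¹)) inferInstance x hxS hx0 F k ?_ u
  intro w
  change cv (y * MonoidAlgebra.single g⁻¹ 1) _ w = 0
  rw [cv_mul]
  have : cv y (fun v => F (v, k)) = fun _ => 0 := funext hf
  rw [this, cv_zerof]

theorem kap_base (htf : ∀ g : G, ∀ n : ℕ, 0 < n → g ^ n = 1 → g = 1)
    (A : Matrix K L (MonoidAlgebra ℂ G)) (h2 : ∀ i j, nt (A i j) ≤ 2)
    (h1 : ∀ j i i', A i j ≠ 0 → A i' j ≠ 0 → i = i') : ∃ d : ℤ, kap A = d := by
  classical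
  let S : Finset K := Finset.univ.filter fun i => ∀ j, A i j = 0
  refine ⟨S.card, ?_⟩
  unfold kap
  have hker : LinearMap.ker (Rop A : EE G K →ₗ[ℂ] EE G L) = cosub G S := by
    ext F
    constructor
    · intro hF
      change ∀ x : G, ∀ i, i ∉ S → F (x, i) = 0
      intro x i hi
      have hi' : ∃ j, A i j ≠ 0 := by
        by_contra hno
        push Not at hno
        exact hi (Finset.mem_filter.2 ⟨Finset.mem_univ _, hno⟩)
      obtain ⟨j, hj⟩ := hi'
      refine coord_zero htf (A i j) hj (h2 i j) F i ?_ x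
      intro u
      have h3 : Rop A F = 0 := hF
      have h4 : Rop A F (u, j) = 0 := by rw [h3]; rfl
      rw [Rop_apply, Finset.sum_eq_single i] at h4
      · exact h4
      · intro k _ hk
        have : A k j = 0 := by
          by_contra h5
          exact hk (h1 j k i h5 hj)
        rw [this, cv_zero]
      · intro h; exact absurd (Finset.mem_univ _) h
    · intro hF
      change Rop A F = 0
      ext ⟨u, j⟩
      rw [Rop_apply]
      change _ = (0 : ℂ)
      refine Finset.sum_eq_zero fun k _ => ?_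
      by_cases hk : k ∈ S
      · rw [(Finset.mem_filter.1 hk).2 j, cv_zero]
      · have : (fun v => F (v, k)) = fun _ => 0 := funext fun v => hF v k hk
        rw [this, cv_zerof]
  rw [hker, vd_cosub]
  simp

/-- the columns with two rows -/
def Bad (A : Matrix K L (MonoidAlgebra ℂ G)) (j : L) : Prop :=
  ∃ i i', i ≠ i' ∧ A i j ≠ 0 ∧ A i' j ≠ 0

open Classical in
theorem step (A : Matrix K L (MonoidAlgebra ℂ G)) (h2 : ∀ j, ∑ i, nt (A i j) ≤ 2) (j0 : L)
    (hj0 : Bad A j0) : ∃ B : Matrix K L (MonoidAlgebra ℂ G), kap B = kap A ∧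
      (∀ j, ∑ i, nt (B i j) ≤ 2) ∧
      (Finset.univ.filter fun j => Bad B j).card < (Finset.univ.filter fun j => Bad A j).card := by
  obtain ⟨i1, i2, hne, ha1, ha2⟩ := hj0
  have hsum : ∀ f : K → ℕ, ∑ i, f i = f i1 + (f i2 + ∑ i ∈ (Finset.univ.erase i1).erase i2, f i) := by
    intro f
    rw [Finset.add_sum_erase _ f (Finset.mem_erase.2 ⟨hne.symm, Finset.mem_univ _⟩),
      Finset.add_sum_erase _ f (Finset.mem_univ _)]
  have p1 : 1 ≤ nt (A i1 j0) := Nat.one_le_iff_ne_zero.2 fun h => ha1 (nt_eq_zero.1 h)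
  have p2 : 1 ≤ nt (A i2 j0) := Nat.one_le_iff_ne_zero.2 fun h => ha2 (nt_eq_zero.1 h)
  have h3 := h2 j0
  rw [hsum] at h3
  have hu : nt (A i1 j0) = 1 := by omega
  have hv : nt (A i2 j0) = 1 := by omega
  have h0 : ∀ i, i ≠ i1 → i ≠ i2 → A i j0 = 0 := by
    intro i hi1 hi2
    have h4 : ∑ i ∈ (Finset.univ.erase i1).erase i2, nt (A i j0) = 0 := by omega
    rw [Finset.sum_eq_zero_iff] at h4
    exact nt_eq_zero.1 (h4 i (Finset.mem_erase.2 ⟨hi2, Finset.mem_erase.2
      ⟨hi1, Finset.mem_univ _⟩⟩))
  obtain ⟨g, a, ha, hA1⟩ := eq_single_of_nt hu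
  obtain ⟨h, b, hb, hA2⟩ := eq_single_of_nt hv
  set u : MonoidAlgebra ℂ G := MonoidAlgebra.single g a with hudef
  set u' : MonoidAlgebra ℂ G := MonoidAlgebra.single g⁻¹ a⁻¹ with hu'def
  have huu' : u * u' = 1 := by
    rw [hudef, hu'def, MonoidAlgebra.single_mul_single, mul_inv_cancel, mul_inv_cancel₀ ha,
      MonoidAlgebra.one_def]
  have hu'u : u' * u = 1 := by
    rw [hudef, hu'def, MonoidAlgebra.single_mul_single, inv_mul_cancel, inv_mul_cancel₀ ha,
      MonoidAlgebra.one_def]
  set c : MonoidAlgebra ℂ G := -(A i2 j0 * u') with hc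
  have hcs : c = MonoidAlgebra.single (h * g⁻¹) (-(b * a⁻¹)) := by
    rw [hc, hA2, hu'def, MonoidAlgebra.single_mul_single]
    ext k
    simp [MonoidAlgebra.coeff_neg]
  let s : K → MonoidAlgebra ℂ G := fun i => if i = i2 then c else 0
  have hs1 : s i1 = 0 := if_neg hne
  let A1 : Matrix K L (MonoidAlgebra ℂ G) := fun i j => A i j + s i * A i1 j
  have hA1k : kap A1 = kap A := kap_row A i1 s hs1
  have hA11 : ∀ j, A1 i1 j = A i1 j := by
    intro j
    simp only [A1, hs1, zero_mul, add_zero]
  have hA12 : ∀ j, A1 i2 j = A i2 j + c * A i1 j := by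
    intro j
    simp only [A1, s, if_true]
  have hA1o : ∀ i, i ≠ i2 → ∀ j, A1 i j = A i j := by
    intro i hi j
    simp only [A1, s, if_neg hi, zero_mul, add_zero]
  have hA1j : ∀ i, A1 i j0 = if i = i1 then u else 0 := by
    intro i
    by_cases hi1 : i = i1
    · rw [if_pos hi1, hi1, hA11, hA1]
    · rw [if_neg hi1]
      by_cases hi2 : i = i2
      · rw [hi2, hA12, hc, hA1, neg_mul, mul_assoc, hu'u, mul_one, add_neg_cancel]
      · rw [hA1o i hi2, h0 i hi1 hi2]
  let r : L → MonoidAlgebra ℂ G := fun j => if j = j0 then 0 else -(u' * A i1 j)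
  have hr0 : r j0 = 0 := if_pos rfl
  let B : Matrix K L (MonoidAlgebra ℂ G) := fun i j => A1 i j + A1 i j0 * r j
  have hBk : kap B = kap A := (kap_col A1 j0 r hr0).trans hA1k
  have hBj0 : ∀ i, B i j0 = if i = i1 then u else 0 := by
    intro i
    simp only [B]
    rw [hr0, mul_zero, add_zero, hA1j]
  have hB1 : ∀ j, j ≠ j0 → B i1 j = 0 := by
    intro j hj
    simp only [B, r]
    rw [hA1j, if_pos rfl, if_neg hj, hA11, mul_neg, ← mul_assoc, huu', one_mul, add_neg_cancel]
  have hBo : ∀ i, i ≠ i1 → ∀ j, j ≠ j0 → B i j = A1 i j := by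
    intro i hi j hj
    simp only [B]
    rw [hA1j, if_neg hi, zero_mul, add_zero]
  refine ⟨B, hBk, ?_, ?_⟩
  · intro j
    by_cases hj : j = j0
    · subst hj
      have : ∀ i, nt (B i j) = if i = i1 then nt u else 0 := by
        intro i
        rw [hBj0]
        split_ifs
        · rfl
        · exact nt_zero
      rw [Finset.sum_congr rfl fun i _ => this i, Finset.sum_ite_eq' Finset.univ i1,
        if_pos (Finset.mem_univ _)]
      exact (nt_single_le g a).trans (by norm_num)
    · refine le_trans ?_ (h2 j)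
      rw [hsum, hsum (fun i => nt (A i j)), hB1 j hj, nt_zero, hBo i2 hne.symm j hj, hA12]
      have h5 : ∑ i ∈ (Finset.univ.erase i1).erase i2, nt (B i j)
          = ∑ i ∈ (Finset.univ.erase i1).erase i2, nt (A i j) := by
        refine Finset.sum_congr rfl fun i hi => ?_
        rw [Finset.mem_erase, Finset.mem_erase] at hi
        rw [hBo i hi.2.1 j hj, hA1o i hi.1]
      rw [h5]
      have h6 := nt_add (A i2 j) (c * A i1 j)
      have h7 : nt (c * A i1 j) ≤ nt (A i1 j) := by
        rw [hcs]
        exact nt_single_mul _ _ _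
      omega
  · apply Finset.card_lt_card
    rw [Finset.ssubset_iff_of_subset]
    · refine ⟨j0, Finset.mem_filter.2 ⟨Finset.mem_univ _, i1, i2, hne, ha1, ha2⟩, ?_⟩
      rw [Finset.mem_filter]
      rintro ⟨_, i, i', hii, hi, hi'⟩
      rw [hBj0] at hi hi'
      have e1 : i = i1 := by
        by_contra h
        exact hi (if_neg h)
      have e2 : i' = i1 := by
        by_contra h
        exact hi' (if_neg h)
      exact hii (e1.trans e2.symm)
    · intro j hj
      rw [Finset.mem_filter] at hj ⊢
      refine ⟨Finset.mem_univ _, ?_⟩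
      obtain ⟨_, i, i', hii, hi, hi'⟩ := hj
      by_cases hjj : j = j0
      · subst hjj
        exact ⟨i1, i2, hne, ha1, ha2⟩
      have n1 : i ≠ i1 := by
        rintro rfl
        exact hi (hB1 j hjj)
      have n1' : i' ≠ i1 := by
        rintro rfl
        exact hi' (hB1 j hjj)
      rw [hBo i n1 j hjj] at hi
      rw [hBo i' n1' j hjj] at hi'
      have key : ∀ k, A i2 j + c * A i1 j ≠ 0 → k ≠ i1 → k ≠ i2 → A k j ≠ 0 → Bad A j := by
        intro k h8 hk1 hk2 hk
        by_cases h9 : A i2 j = 0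
        · refine ⟨k, i1, hk1, hk, ?_⟩
          intro h10
          apply h8
          rw [h9, h10, mul_zero, add_zero]
        · exact ⟨k, i2, hk2, hk, h9⟩
      by_cases m : i = i2
      · subst m
        rw [hA12] at hi
        rw [hA1o i' (fun h => hii h.symm)] at hi'
        exact key i' hi n1' (fun h => hii h.symm) hi'
      · by_cases m' : i' = i2
        · subst m'
          rw [hA12] at hi'
          rw [hA1o i m] at hi
          exact key i hi' n1 m hi
        · rw [hA1o i m] at hi
          rw [hA1o i' m'] at hi'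
          exact ⟨i, i', hii, hi, hi'⟩

open Classical in
/-- **Two terms in each column.** -/
theorem kap_cols (htf : ∀ g : G, ∀ n : ℕ, 0 < n → g ^ n = 1 → g = 1) :
    ∀ (N : ℕ) (A : Matrix K L (MonoidAlgebra ℂ G)), (∀ j, ∑ i, nt (A i j) ≤ 2) →
      (Finset.univ.filter fun j => Bad A j).card ≤ N → ∃ d : ℤ, kap A = d := by
  intro N
  induction N with
  | zero =>
    intro A h2 hN
    have h0 : ∀ j, ¬ Bad A j := by
      intro j hj
      have : (Finset.univ.filter fun j => Bad A j) = ∅ := Finset.card_eq_zero.1 (Nat.le_zero.1 hN)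
      have h3 : j ∈ (Finset.univ.filter fun j => Bad A j) := Finset.mem_filter.2
        ⟨Finset.mem_univ _, hj⟩
      rw [this] at h3
      exact Finset.notMem_empty _ h3
    refine kap_base htf A (fun i j => ?_) ?_
    · exact (Finset.single_le_sum (f := fun i => nt (A i j)) (fun _ _ => Nat.zero_le _)
        (Finset.mem_univ i)).trans (h2 j)
    · intro j i i' hi hi'
      by_contra hii
      exact h0 j ⟨i, i', hii, hi, hi'⟩
  | succ N ih =>
    intro A h2 hN
    by_cases hb : ∃ j, Bad A j
    · obtain ⟨j0, hj0⟩ := hb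
      obtain ⟨B, hB1, hB2, hB3⟩ := step A h2 j0 hj0
      obtain ⟨d, hd⟩ := ih B hB2 (by omega)
      exact ⟨d, hB1.symm.trans hd⟩
    · push Not at hb
      refine ih A h2 ?_
      rw [Finset.filter_false_of_mem (fun j _ => hb j)]
      simp

end Pool.Agent.Q102.TT
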